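import Mathlib
import Pool.Agent.N848.LT.Fin
import Pool.Agent.N848.LT.Expl

/-!
# Leopoldt's conjecture at `2` for all composites with abelian fields of `2`-power degree

Let `k` be a number field (Galois or not) of odd degree, with only one prime above `2`, such that an
element of `k` which is, up to square factors, a unit congruent to `1` modulo `4` at every prime is a
square (by Kummer theory: no quadratic extension of `k` is unramified at all finite primes, that is,
the narrow class number of `k` is odd). Call a Galois extension `A / ℚ` admissible if every prime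
number is unramified in `A` or has only one prime of `k` above it (`2` has, so it may ramify).

(1) For all admissible Galois extensions `F / ℚ` of `2`-power degree Leopoldt's conjecture at `2`
holds for `k F` if and only if it holds for `F`.

(2) For every admissible abelian extension `A / ℚ` all of whose finite subextensions have `2`-power
degree (for example the maximal abelian pro-`2` extension unramified outside the primes with a single
prime of `k` above them) Leopoldt's conjecture at `2` holds, unconditionally, for all number fields
contained in `k A`.

(3) In particular it holds for all number fields contained in the field generated over `k` by the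
square roots of all integers whose prime divisors have only one prime of `k` above them.

(4) If the degree of `k` is a prime, there are infinitely many such primes.

(5) The field generated by a root of `X³ - X² - 3 X + 1` is an example of such a field `k`, cubic,
totally real and not Galois over `ℚ`.

Proof. Call `b ∈ K*` unramified at `v` if it is a unit congruent to `1` modulo `4` at `v`, up to
squares. Let `K / F` be of odd degree and let `P(F, K)` be the statement: an element of `K` which is
unramified at all finite primes and whose norm to `F` is a square is a square. If `F' = F(√m)`,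
`K' = K(√m)` and every prime of `F` at which `m` is not unramified has only one prime of `K` above
it, then `P(F, K)` implies `P(F', K')`: for `f ∈ K'` the norm to `K` is a square by `P(F, K)`, by
Hilbert 90 `f` is a square times some `b ∈ K`, whose norm to `F` may be assumed to be a square; at
every prime `b` or `b m` is unramified (an identity between norms and traces), the second case is
excluded by the norm to `F`, and `P(F, K)` applies to `b`. By induction over the `2`-group
`P(F, k F)` holds for all admissible `F`. Now let `u` be a unit of `K = k F` very close to `1` at all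
primes above `2`. The unit `u^n / N u`, where `n = [K : F]` and `N u` is the norm to `F`, has norm
`1`, so it is a square of a unit `w` of norm `1` by `P(F, K)`, and `w` is again close to `1`: its sign
at a prime above `2` is determined by the norm, because the primes of `F` above `2` have only one
prime of `K` above them. Repeating this, `u^n / N u` is a `2^j`-th power with large `j`, and so is
`N u` by Leopoldt's conjecture for `F`; hence so is `u`. For abelian `F` Leopoldt's conjecture is the
theorem of Ax and Brumer (starting library).

The parts were proved together with helpers 34, 186, 280, 281, 288, 327, 340, 356, 371, 402, 413,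
458, 592, 667, 700, 706, 720, 850, 899, 942, 966 and 971.
-/

set_option autoImplicit false

namespace Pool.Agent.Results.MP_5f2860_nt.CompositesAtTwo

open NumberField IsDedekindDomain Module Filter Topology

/-- Leopoldt's conjecture for the number field `K` and the prime `p`, in the form of the frozen
statement: units of `K` congruent to `1` at all primes above `p` which are multiplicatively
independent over `ℤ` stay independent over `ℤ_p` in the product of the completions above `p`. -/
def Leopoldt (K : Type) [Field K] [NumberField K] (p : ℕ) [Fact p.Prime] : Prop :=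
  ∀ (n : ℕ) (ε : Fin n → (𝓞 K)ˣ),
    (∀ i, ((ε i : 𝓞 K) - 1) ∈ (Ideal.span {((p : ℕ) : 𝓞 K)}).radical) →
    (∀ c : Fin n → ℤ, ∏ i, ε i ^ c i = 1 → c = 0) →
    ∀ (a : Fin n → PadicInt p) (m : ℕ → Fin n → ℤ),
      (∀ i, Tendsto (fun k => ((m k i : ℤ) : PadicInt p)) atTop (𝓝 (a i))) →
      (∀ N : ℕ, ∀ᶠ k in atTop,
        ((p : ℕ) : 𝓞 K) ^ N ∣ (((∏ i, ε i ^ m k i : (𝓞 K)ˣ) : 𝓞 K) - 1)) →
      a = 0

/-- The field `L ⊆ Ω` is a number field and satisfies Leopoldt's conjecture at `p`. -/
def LeopoldtFor {Ω : Type} [Field Ω] [CharZero Ω] (L : IntermediateField ℚ Ω) (p : ℕ)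
    [Fact p.Prime] : Prop :=
  ∃ _ : NumberField L, Leopoldt L p

/-- The prime number `q` is unramified in the (possibly infinite) algebraic extension `E` of `ℚ`:
`(q)` is a radical ideal of the ring of the algebraic integers of `E`. -/
def Unramified (E : Type) [Field E] (q : ℕ) : Prop := (Ideal.span {(q : 𝓞 E)}).IsRadical

/-- There is only one prime of `E` above the prime number `q`. -/
def Nonsplit (E : Type) [Field E] (q : ℕ) : Prop :=
  ∀ P P' : Ideal (𝓞 E), P.IsPrime → P'.IsPrime → (q : 𝓞 E) ∈ P → (q : 𝓞 E) ∈ P' → P = P'

/-- The condition on the ramification of `A / ℚ`: every ramified prime has only one prime of `k`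
above it. -/
def Admissible (k A : Type) [Field k] [Field A] : Prop :=
  ∀ q : ℕ, q.Prime → Unramified A q ∨ Nonsplit k q

/-- An element `b` of `k` which at every prime `v` is a unit congruent to `1` modulo `4`, up to a
square factor, is a square. -/
def NoUnramifiedQuadratic (k : Type) [Field k] [NumberField k] : Prop :=
  ∀ b : k, b ≠ 0 →
    (∀ v : HeightOneSpectrum (𝓞 k), ∃ y : k,
      v.valuation k (b * y ^ 2) = 1 ∧ v.valuation k (b * y ^ 2 - 1) ≤ v.valuation k 4) →
    IsSquare b

/-- The hypotheses on the base field `k ⊆ Ω`: a number field of odd degree with only one prime above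
`2` and without quadratic extensions unramified at all finite primes. -/
def BaseField {Ω : Type} [Field Ω] [CharZero Ω] (k : IntermediateField ℚ Ω) : Prop :=
  ∃ _ : NumberField k, Odd (finrank ℚ k) ∧ Nonsplit k 2 ∧ NoUnramifiedQuadratic k

/-- `A / ℚ` is a (possibly infinite) abelian extension, all of whose finite subextensions have
`2`-power degree. -/
def AbelianTwo {Ω : Type} [Field Ω] [CharZero Ω] (A : IntermediateField ℚ Ω) : Prop :=
  IsGalois ℚ A ∧ (∀ g h : A ≃ₐ[ℚ] A, g * h = h * g) ∧
    ∀ F : IntermediateField ℚ Ω, F ≤ A → FiniteDimensional ℚ F → ∃ r : ℕ, finrank ℚ F = 2 ^ r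

/-- **Main result.** -/
theorem result (Ω : Type) [Field Ω] [CharZero Ω] :
    (∀ k : IntermediateField ℚ Ω, BaseField k →
      (∀ (r : ℕ) (F : IntermediateField ℚ Ω), IsGalois ℚ F → finrank ℚ F = 2 ^ r →
        Admissible k F → (LeopoldtFor (k ⊔ F) 2 ↔ LeopoldtFor F 2)) ∧
      (∀ A : IntermediateField ℚ Ω, AbelianTwo A → Admissible k A →
        ∀ L : IntermediateField ℚ Ω, L ≤ k ⊔ A → FiniteDimensional ℚ L → LeopoldtFor L 2) ∧
      (∀ L : IntermediateField ℚ Ω, L ≤ k ⊔ IntermediateField.adjoin ℚ {s : Ω | ∃ t : ℤ,
          (∀ q : ℕ, q.Prime → (q : ℤ) ∣ t → Nonsplit k q) ∧ s ^ 2 = (t : Ω)} →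
        FiniteDimensional ℚ L → LeopoldtFor L 2) ∧
      ((finrank ℚ k).Prime → {q : ℕ | q.Prime ∧ Nonsplit k q}.Infinite)) ∧
    (∀ α : Ω, α ^ 3 - α ^ 2 - 3 * α + 1 = 0 →
      BaseField (IntermediateField.adjoin ℚ {α}) ∧
      finrank ℚ (IntermediateField.adjoin ℚ {α}) = 3 ∧
      IsTotallyReal (IntermediateField.adjoin ℚ {α}) ∧
      ¬ IsGalois ℚ (IntermediateField.adjoin ℚ {α})) :=
  ⟨fun k hk => ⟨fun r F hG hF hA => Pool.Agent.N848.LT.fin1 k F hk hG r hF hA,
      fun A hA hq L hL hf => Pool.Agent.N848.LT.fin2 k A hk hA hq L hL hf,
      fun L hL hf => Pool.Agent.N848.LT.fin3 Pool.Agent.N848.LT.sqt k hk L hL hf,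
      fun h => Pool.Agent.N848.LT.fin4 k h⟩,
    fun α hα => Pool.Agent.N848.LT.fin5 α hα⟩

end Pool.Agent.Results.MP_5f2860_nt.CompositesAtTwo
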