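import Mathlib
import Pool.Agent.N848.LT.Sig
import Pool.Agent.N848.LT.Expl

/-!
# The `Σ`-Leopoldt conjecture at `2` for all CM fields over composites `k A`, `A` real abelian

Let `k` be a totally real number field (Galois or not) of odd degree, with only one prime above `2`,
such that an element of `k` which is, up to square factors, a unit congruent to `1` modulo `4` at
every prime is a square (by Kummer theory: no quadratic extension of `k` is unramified at all finite
primes, that is, the narrow class number of `k` is odd). Let `A / ℚ` be a totally real, possibly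
infinite, abelian extension, all of whose finite subextensions have `2`-power degree, and such that
every prime number which ramifies in `A` has only one prime of `k` above it.

(1) Let `F` and `L` be arbitrary number fields contained in `k A`, `K` a totally complex quadratic
extension of `F`, `S` a CM type of `K` with values in `ℂ_2` and `χ` a character of `Gal(K L / K)`.
Then the `Σ`-Leopoldt statement holds: the map `x ↦ (log σ(x))_σ`, where `σ` runs through the
embeddings of `K L` over `S`, is injective on the `χ`-part of `ℂ_2 ⊗ 𝓞_{K L}^×`.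

(2) In particular this holds for all number fields `F`, `L` contained in the field generated over `k`
by the square roots of all positive integers whose prime divisors have only one prime of `k` above
them. There are infinitely many such primes if the degree of `k` is a prime.

(3) The field generated by a root of `X³ - X² - 3 X + 1` is an example of such a field `k`, cubic,
totally real and not Galois over `ℚ`.

Proof. A complex conjugation acts trivially on the units of the CM field `K L`, up to roots of unity,
so that the statement follows from Leopoldt's conjecture at `2` for the real field `F L ⊆ k A`. This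
is proved in MP_5f2860_nt.CompositesAtTwo: all relative units of `k F₀ / F₀`, `F₀ ⊆ A` finite, which
are close to `1` are squares of relative units close to `1`, and Leopoldt's conjecture for `F₀` is the
theorem of Ax and Brumer.

The parts were proved together with helpers 34, 186, 280, 281, 288, 327, 340, 356, 371, 402, 413,
458, 592, 667, 700, 706, 720, 850, 899, 942, 966 and 971; the passage from real fields to CM fields
is from the starting library.
-/

set_option autoImplicit false

namespace Pool.Agent.Results.MP_fc6b1e_nt.RealCompositesAtTwo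

open NumberField IsDedekindDomain Module

/-- The prime number `q` is unramified in the (possibly infinite) algebraic extension `E` of `ℚ`:
`(q)` is a radical ideal of the ring of the algebraic integers of `E`. -/
def Unramified (E : Type) [Field E] (q : ℕ) : Prop := (Ideal.span {(q : 𝓞 E)}).IsRadical

/-- There is only one prime of `E` above the prime number `q`. -/
def Nonsplit (E : Type) [Field E] (q : ℕ) : Prop :=
  ∀ P P' : Ideal (𝓞 E), P.IsPrime → P'.IsPrime → (q : 𝓞 E) ∈ P → (q : 𝓞 E) ∈ P' → P = P'

/-- The condition on the ramification of `A / ℚ`: every ramified prime has only one prime of `k`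
above it. -/
def Admissible (k A : Type) [Field k] [Field A] : Prop :=
  ∀ q : ℕ, q.Prime → Unramified A q ∨ Nonsplit k q

/-- An element `b` of `k` which at every prime `v` is a unit congruent to `1` modulo `4`, up to a
square factor, is a square. -/
def NoUnramifiedQuadratic (k : Type) [Field k] [NumberField k] : Prop :=
  ∀ b : k, b ≠ 0 →
    (∀ v : HeightOneSpectrum (𝓞 k), ∃ y : k,
      v.valuation k (b * y ^ 2) = 1 ∧ v.valuation k (b * y ^ 2 - 1) ≤ v.valuation k 4) →
    IsSquare b

/-- The hypotheses on the base field `k ⊆ Ω`: a number field of odd degree with only one prime above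
`2` and without quadratic extensions unramified at all finite primes. -/
def BaseField {Ω : Type} [Field Ω] [CharZero Ω] (k : IntermediateField ℚ Ω) : Prop :=
  ∃ _ : NumberField k, Odd (finrank ℚ k) ∧ Nonsplit k 2 ∧ NoUnramifiedQuadratic k

/-- `A / ℚ` is a (possibly infinite) abelian extension, all of whose finite subextensions have
`2`-power degree. -/
def AbelianTwo {Ω : Type} [Field Ω] [CharZero Ω] (A : IntermediateField ℚ Ω) : Prop :=
  IsGalois ℚ A ∧ (∀ g h : A ≃ₐ[ℚ] A, g * h = h * g) ∧
    ∀ F : IntermediateField ℚ Ω, F ≤ A → FiniteDimensional ℚ F → ∃ r : ℕ, finrank ℚ F = 2 ^ r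

open Pool.Agent.W289.SL in
/-- For every totally complex quadratic extension `K ⊆ Ω` of `F`, every CM type `S` of `K` with
values in `ℂ_2` and every character `χ` of `Gal(K L / K)` the `Σ`-Leopoldt statement holds: the map
`x ↦ (log_2 (σ x))_σ`, where `σ` runs through the embeddings `K L → ℂ_2` whose restriction to `K`
lies in `S`, is injective on the `χ`-part of `ℂ_2 ⊗ 𝓞_{K L}^×`. -/
def SigmaLeopoldtAll {Ω : Type} [Field Ω] [CharZero Ω] (F L : IntermediateField ℚ Ω) : Prop :=
  ∀ (K : IntermediateField ℚ Ω) (hFK : F ≤ K), FiniteDimensional ℚ K → IsTotallyComplex K →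
    finrank ℚ K = 2 * finrank ℚ F → ∃ _ : NumberField ↥(K ⊔ L),
      letI : Algebra F K := (IntermediateField.inclusion hFK).toRingHom.toAlgebra
      letI : Algebra K ↥(K ⊔ L) :=
        (IntermediateField.inclusion (le_sup_left : K ≤ K ⊔ L)).toRingHom.toAlgebra
      ∀ S : Set (K →+* ℂ_[2]), IsCMType 2 F K S →
        ∀ χ : (↥(K ⊔ L) ≃ₐ[K] ↥(K ⊔ L)) →* ℂ_[2]ˣ, SigmaLeopoldt 2 K ↥(K ⊔ L) S χ

/-- **Main result.** -/
theorem result (Ω : Type) [Field Ω] [CharZero Ω] :
    (∀ k : IntermediateField ℚ Ω, BaseField k → IsTotallyReal k →
      (∀ A : IntermediateField ℚ Ω, AbelianTwo A → IsTotallyReal A → Admissible k A →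
        ∀ F L : IntermediateField ℚ Ω, F ≤ k ⊔ A → L ≤ k ⊔ A → FiniteDimensional ℚ F →
          FiniteDimensional ℚ L → SigmaLeopoldtAll F L) ∧
      (∀ F L : IntermediateField ℚ Ω,
        F ≤ k ⊔ IntermediateField.adjoin ℚ {s : Ω | ∃ t : ℤ, (0 < t ∧
          ∀ q : ℕ, q.Prime → (q : ℤ) ∣ t → Nonsplit k q) ∧ s ^ 2 = (t : Ω)} →
        L ≤ k ⊔ IntermediateField.adjoin ℚ {s : Ω | ∃ t : ℤ, (0 < t ∧
          ∀ q : ℕ, q.Prime → (q : ℤ) ∣ t → Nonsplit k q) ∧ s ^ 2 = (t : Ω)} →
        FiniteDimensional ℚ F → FiniteDimensional ℚ L → SigmaLeopoldtAll F L) ∧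
      ((finrank ℚ k).Prime → {q : ℕ | q.Prime ∧ Nonsplit k q}.Infinite)) ∧
    (∀ α : Ω, α ^ 3 - α ^ 2 - 3 * α + 1 = 0 →
      BaseField (IntermediateField.adjoin ℚ {α}) ∧
      finrank ℚ (IntermediateField.adjoin ℚ {α}) = 3 ∧
      IsTotallyReal (IntermediateField.adjoin ℚ {α}) ∧
      ¬ IsGalois ℚ (IntermediateField.adjoin ℚ {α})) :=
  ⟨fun k hk hkr => ⟨fun A hA hAr hq F L hF hL hFf hLf =>
        Pool.Agent.N848.LT.sig1 k A hk hkr hA hAr hq F L hF hL hFf hLf,
      fun F L hF hL hFf hLf =>
        Pool.Agent.N848.LT.sig2 Pool.Agent.N848.LT.sqt k hk hkr F L hF hL hFf hLf,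
      fun h => Pool.Agent.N848.LT.fin4 k h⟩,
    fun α hα => Pool.Agent.N848.LT.fin5 α hα⟩

end Pool.Agent.Results.MP_fc6b1e_nt.RealCompositesAtTwo
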